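import Pool.Agent.U982.DK.Bits
import Pool.Agent.X40.SQ.Series2

/-!
# Bounds for the coefficients under parity splitting
-/

set_option autoImplicit false

namespace Pool.Agent.U982.DL

open PowerSeries Finset
open Pool.Agent.U982.DK (ep op Bd)
open Pool.Agent.X40.SQ (e al PJ coeff_PJ)

/-- the sum of the absolute values of the first coefficients -/
noncomputable def l1 (f : ℤ⟦X⟧) (N : ℕ) : ℤ := ∑ i ∈ range N, |coeff i f|

/-- both bounds -/
def B1 (f : ℤ⟦X⟧) (N a s : ℕ) : Prop := Bd f N a ∧ l1 f N ≤ s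

lemma l1_nonneg (f : ℤ⟦X⟧) (N : ℕ) : 0 ≤ l1 f N := sum_nonneg fun _ _ => abs_nonneg _

lemma l1_mono (f : ℤ⟦X⟧) {N M : ℕ} (h : N ≤ M) : l1 f N ≤ l1 f M :=
  sum_le_sum_of_subset_of_nonneg (range_mono h) fun _ _ _ => abs_nonneg _

lemma l1_split (f : ℤ⟦X⟧) (N : ℕ) : l1 (ep f) N + l1 (op f) N = l1 f (2 * N) := by
  unfold l1
  induction N with
  | zero => simp
  | succ N ih =>
    rw [show 2 * (N + 1) = 2 * N + 1 + 1 by ring, sum_range_succ, sum_range_succ, sum_range_succ,
      sum_range_succ, ← ih, ep, op, coeff_mk, coeff_mk]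
    ring

lemma Bd_nonneg {f : ℤ⟦X⟧} {N a : ℕ} (k : ℕ) (hk : k < N) (h : Bd f N a) : |coeff k f| ≤ a := h k hk

lemma coeff_mul_le (f g : ℤ⟦X⟧) (N a : ℕ) (hg : Bd g N a) (k : ℕ) (hk : k < N) :
    |coeff k (f * g)| ≤ l1 f N * a := by
  rw [PowerSeries.coeff_mul]
  calc |∑ p ∈ antidiagonal k, coeff p.1 f * coeff p.2 g|
      ≤ ∑ p ∈ antidiagonal k, |coeff p.1 f * coeff p.2 g| := abs_sum_le_sum_abs _ _
    _ ≤ ∑ p ∈ antidiagonal k, |coeff p.1 f| * a := by
        apply sum_le_sum
        intro p hp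
        have hp' := mem_antidiagonal.mp hp
        rw [abs_mul]
        exact mul_le_mul_of_nonneg_left (hg _ (by omega)) (abs_nonneg _)
    _ = ∑ i ∈ range (k + 1), |coeff i f| * a :=
        Finset.Nat.sum_antidiagonal_eq_sum_range_succ (fun i _ => |coeff i f| * (a : ℤ)) k
    _ = l1 f (k + 1) * a := by rw [l1, sum_mul]
    _ ≤ l1 f N * a := mul_le_mul_of_nonneg_right (l1_mono f (by omega)) (by positivity)

lemma l1_mul (f g : ℤ⟦X⟧) (N : ℕ) : l1 (f * g) N ≤ l1 f N * l1 g N := by
  calc l1 (f * g) N ≤ ∑ k ∈ range N, ∑ p ∈ antidiagonal k, |coeff p.1 f| * |coeff p.2 g| := by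
        apply sum_le_sum
        intro k _
        rw [PowerSeries.coeff_mul]
        refine (abs_sum_le_sum_abs _ _).trans (le_of_eq (sum_congr rfl fun p _ => abs_mul _ _))
    _ = ∑ p ∈ (range N).biUnion (fun k => antidiagonal k), |coeff p.1 f| * |coeff p.2 g| := by
        rw [sum_biUnion]
        intro x _ y _ hxy
        rw [Function.onFun, Finset.disjoint_left]
        intro p hp hq
        exact hxy ((mem_antidiagonal.mp hp).symm.trans (mem_antidiagonal.mp hq))
    _ ≤ ∑ p ∈ range N ×ˢ range N, |coeff p.1 f| * |coeff p.2 g| := by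
        apply sum_le_sum_of_subset_of_nonneg
        · intro p hp
          obtain ⟨k, hk, hp⟩ := mem_biUnion.mp hp
          have h1 := mem_antidiagonal.mp hp
          have h2 := mem_range.mp hk
          rw [mem_product, mem_range, mem_range]
          omega
        · intro p _ _
          positivity
    _ = l1 f N * l1 g N := by
        rw [l1, l1, sum_mul_sum, sum_product]

lemma l1_sub (f g : ℤ⟦X⟧) (N : ℕ) : l1 (f - g) N ≤ l1 f N + l1 g N := by
  rw [l1, l1, l1, ← sum_add_distrib]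
  apply sum_le_sum
  intro i _
  rw [map_sub]
  exact abs_sub _ _

lemma l1_X (f : ℤ⟦X⟧) (N : ℕ) : l1 (X * f) N ≤ l1 f N := by
  cases N with
  | zero => simp [l1]
  | succ N =>
    have h1 : l1 (X * f) (N + 1) = l1 f N := by
      rw [l1, sum_range_succ']
      simp [coeff_succ_X_mul, l1]
    rw [h1]
    exact l1_mono f (Nat.le_succ N)

lemma Bd_X {f : ℤ⟦X⟧} {N : ℕ} {b : ℤ} (hb : 0 ≤ b) (h : ∀ i < N, |coeff i f| ≤ b) :
    ∀ i < N, |coeff i (X * f)| ≤ b := by
  intro i hi
  cases i with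
  | zero => simpa using hb
  | succ i =>
    rw [coeff_succ_X_mul]
    exact h i (by omega)

lemma B1_ep {f : ℤ⟦X⟧} {N a s : ℕ} (h : B1 f (2 * N) a s) : Bd (ep f) N a := by
  intro i hi
  rw [ep, coeff_mk]
  exact h.1 _ (by omega)

lemma B1_op {f : ℤ⟦X⟧} {N a s : ℕ} (h : B1 f (2 * N) a s) : Bd (op f) N a := by
  intro i hi
  rw [op, coeff_mk]
  exact h.1 _ (by omega)

lemma B1_even {P D : ℤ⟦X⟧} {N a s : ℕ} (hP : B1 P (2 * N) a s) (hD : B1 D (2 * N) a s) :
    B1 (ep P * ep D - X * (op P * op D)) N (a * s) (s * s) := by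
  have e1 := l1_split P N
  have e2 := l1_split D N
  have p1 := hP.2
  have p2 := hD.2
  have n1 := l1_nonneg (ep P) N
  have n2 := l1_nonneg (op P) N
  have n3 := l1_nonneg (ep D) N
  have n4 := l1_nonneg (op D) N
  have ha : (0 : ℤ) ≤ a := by positivity
  constructor
  · intro k hk
    rw [map_sub]
    have h1 := coeff_mul_le (ep P) (ep D) N a (B1_ep hD) k hk
    have h2 := Bd_X (f := op P * op D) (N := N) (b := l1 (op P) N * a) (by positivity)
      (fun i hi => coeff_mul_le (op P) (op D) N a (B1_op hD) i hi) k hk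
    refine (abs_sub _ _).trans ?_
    push_cast
    nlinarith
  · refine (l1_sub _ _ _).trans ?_
    have h1 := l1_mul (ep P) (ep D) N
    have h2 := (l1_X (op P * op D) N).trans (l1_mul (op P) (op D) N)
    push_cast
    nlinarith [mul_nonneg n1 n4, mul_nonneg n2 n3]

lemma B1_odd {P D : ℤ⟦X⟧} {N a s : ℕ} (hP : B1 P (2 * N) a s) (hD : B1 D (2 * N) a s) :
    B1 (op P * ep D - ep P * op D) N (a * s) (s * s) := by
  have e1 := l1_split P N
  have e2 := l1_split D N
  have p1 := hP.2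
  have p2 := hD.2
  have n1 := l1_nonneg (ep P) N
  have n2 := l1_nonneg (op P) N
  have n3 := l1_nonneg (ep D) N
  have n4 := l1_nonneg (op D) N
  have ha : (0 : ℤ) ≤ a := by positivity
  constructor
  · intro k hk
    rw [map_sub]
    have h1 := coeff_mul_le (op P) (ep D) N a (B1_ep hD) k hk
    have h2 := coeff_mul_le (ep P) (op D) N a (B1_op hD) k hk
    refine (abs_sub _ _).trans ?_
    push_cast
    nlinarith
  · refine (l1_sub _ _ _).trans ?_
    have h1 := l1_mul (op P) (ep D) N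
    have h2 := l1_mul (ep P) (op D) N
    push_cast
    nlinarith [mul_nonneg n1 n3, mul_nonneg n2 n4]

lemma sum_ite_le (N a : ℕ) : ∑ i ∈ range N, (if i = a then (1 : ℤ) else 0) ≤ 1 := by
  rw [sum_ite_eq' (range N) a]
  split_ifs <;> norm_num

lemma l1_PJ (N J : ℕ) : ∑ i ∈ range N, |(PJ J).coeff i| ≤ 4 * J := by
  induction J with
  | zero => simp [PJ]
  | succ J ih =>
    have h1 : ∀ i, |(PJ (J + 1)).coeff i| ≤ |(PJ J).coeff i| + ((if i = al J then (1 : ℤ) else 0)
        + (if i = al J + (4 * J + 1) then (1 : ℤ) else 0)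
        + (if i = al J + (6 * J + 2) then (1 : ℤ) else 0)
        + (if i = al J + (10 * J + 5) then (1 : ℤ) else 0)) := by
      intro i
      rw [PJ, sum_range_succ, ← PJ, Polynomial.coeff_add]
      have h2 : (Polynomial.X ^ al J * (1 - Polynomial.X ^ (4 * J + 1) - Polynomial.X ^ (6 * J + 2)
          + Polynomial.X ^ (10 * J + 5)) : Polynomial ℤ) = Polynomial.X ^ al J
          - Polynomial.X ^ (al J + (4 * J + 1)) - Polynomial.X ^ (al J + (6 * J + 2))
          + Polynomial.X ^ (al J + (10 * J + 5)) := by ring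
      rw [h2, Polynomial.coeff_add, Polynomial.coeff_sub, Polynomial.coeff_sub,
        Polynomial.coeff_X_pow, Polynomial.coeff_X_pow, Polynomial.coeff_X_pow, Polynomial.coeff_X_pow]
      refine (abs_add_le _ _).trans (add_le_add le_rfl ?_)
      split_ifs <;> norm_num
    calc ∑ i ∈ range N, |(PJ (J + 1)).coeff i| ≤ _ := sum_le_sum fun i _ => h1 i
      _ ≤ 4 * J + (1 + 1 + 1 + 1) := by
          rw [sum_add_distrib, sum_add_distrib, sum_add_distrib, sum_add_distrib]
          exact add_le_add ih (add_le_add (add_le_add (add_le_add (sum_ite_le _ _) (sum_ite_le _ _))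
            (sum_ite_le _ _)) (sum_ite_le _ _))
      _ = 4 * ((J + 1 : ℕ) : ℤ) := by push_cast; ring

lemma l1_pent (N J : ℕ) (h : N ≤ al J) : l1 (pentagonalSeries ℤ) N ≤ 4 * J := by
  refine le_trans (le_of_eq (sum_congr rfl fun i hi => ?_)) (l1_PJ N J)
  rw [coeff_PJ J i (lt_of_lt_of_le (mem_range.mp hi) h), e]

lemma l1_expand (f : ℤ⟦X⟧) (N : ℕ) : l1 (expand 2 two_ne_zero f) N ≤ l1 f N := by
  refine (l1_mono _ (show N ≤ 2 * N by omega)).trans (le_of_eq ?_)
  unfold l1
  induction N with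
  | zero => simp
  | succ N ih =>
    rw [show 2 * (N + 1) = 2 * N + 1 + 1 by ring, sum_range_succ, sum_range_succ, sum_range_succ, ih,
      coeff_expand, coeff_expand, if_pos (dvd_mul_right 2 N), if_neg (by omega),
      Nat.mul_div_cancel_left N (by norm_num)]
    simp

end Pool.Agent.U982.DL
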