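import Pool.Agent.U982.DK.Bits
import Pool.Agent.U982.DK.Fermat
import Pool.Agent.U982.DL.Norm

/-!
# The kernel computation by repeated parity splitting, second version
-/

set_option autoImplicit false

namespace Pool.Agent.U982.DL

open PowerSeries Finset
open Pool.Agent.U982.DK
open Pool.Agent.X40.SQ (fo fn mask fo_eq fn_eq land_mask mask_eq newton beq_true blt_true
  rec_and)

/-- sets of digit positions: empty, the position zero, or a set below `h` and a set shifted by `h` -/
inductive K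
  | z : K
  | t : K
  | s (h : ℕ) (a b : K) : K

/-- binary trees with sets of digit positions at the leaves -/
inductive T
  | nil : T
  | lf (l : K) : T
  | nd (a b : T) : T

/-- is `v` in the set? -/
noncomputable def elB (k : K) : ℕ → Bool :=
  K.rec (motive := fun _ => ℕ → Bool) (fun _ => false) (fun v => Nat.beq v 0)
    (fun h _ _ iha ihb v => fo v fun v => Bool.rec (motive := fun _ => Bool) (ihb (Nat.sub v h)) (iha v)
      (Nat.blt v h)) k

/-- is `v` in the set coded by the tree? The binary digits of `v` lead to a leaf. -/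
noncomputable def memB (t : T) : ℕ → Bool :=
  T.rec (motive := fun _ => ℕ → Bool) (fun _ => false) (fun l v => fo v (elB l))
    (fun _ _ iha ihb v => Bool.rec (motive := fun _ => Bool) (ihb (Nat.div v 2)) (iha (Nat.div v 2))
      (Nat.beq (Nat.mod v 2) 0)) t

/-- the even part of a value -/
noncomputable def fE (S O OO M F : ℕ) : ℕ :=
  Nat.land (Nat.add (Nat.land (Nat.land (Nat.add F OO) (mask S)) M) (Nat.sub (Nat.shiftLeft 1 S) O))
    (mask S)

/-- the odd part of a value -/
noncomputable def fF (c S O OO M F : ℕ) : ℕ :=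
  Nat.land (Nat.add (Nat.land (Nat.shiftRight (Nat.land (Nat.add F OO) (mask S)) c) M)
    (Nat.sub (Nat.shiftLeft 1 S) O)) (mask S)

/-- continue with the value `v` unless the tree is empty -/
noncomputable def gof (go : T → ℕ → Bool) (v : ℕ) (t : T) : Bool :=
  T.rec (motive := fun _ => Bool) true (fun l => go (T.lf l) v) (fun a b _ _ => go (T.nd a b) v) t

/-- an inner node -/
noncomputable def node (c S O OO M De Do : ℕ) (go : T → ℕ → Bool) (t : T) (P : ℕ) : Bool :=
  T.rec (motive := fun _ => Bool) true (fun _ => false) (fun a b _ _ =>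
    (fun Pe Po =>
      Bool.rec (motive := fun _ => Bool) false
        (gof go (sb S (Nat.mul Po De) (Nat.mul Pe Do)) b)
        (gof go (sb S (Nat.mul Pe De) (Nat.shiftLeft (Nat.mul Po Do) (Nat.mul 2 c))) a))
      (fE S O OO M P) (fF c S O OO M P)) t

/-- the tests at a leaf -/
noncomputable def tl (C : ℕ) (k : K) : ℕ → ℕ → Bool :=
  K.rec (motive := fun _ => ℕ → ℕ → Bool) (fun _ _ => true)
    (fun n A => Bool.rec (motive := fun _ => Bool) false (fo (Nat.land A (mask C)) qf) (Nat.blt 0 n))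
    (fun h _ _ iha ihb n A => Bool.rec (motive := fun _ => Bool) false
      (Bool.rec (motive := fun _ => Bool) false
        (fo (Nat.sub n h) fun m => ihb m (Nat.shiftRight A (Nat.mul C h)))
        (iha h (Nat.land A (mask (Nat.mul C h)))))
      (Nat.ble h n)) k

/-- a leaf -/
noncomputable def leafgo (C N S I : ℕ) (t : T) (P : ℕ) : Bool :=
  T.rec (motive := fun _ => Bool) true
    (fun l => tl C l N (Nat.land (Nat.mul P I) (mask S))) (fun _ _ _ _ => false) t

/-- the chain of denominators -/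
noncomputable def mk : ℕ → ℕ → ℕ → ℕ → ℕ → ((T → ℕ → Bool) → Bool) → Bool
  | 0, c, N, S, D, K =>
    (fun I =>
      Bool.rec (motive := fun _ => Bool) false (K (leafgo c N S I))
        (Nat.beq (Nat.land (Nat.mul I D) (mask S)) 1)) (Nat.land (newton D c N 15 1) (mask S))
  | l + 1, c, N, S, D, K =>
    fo (Nat.mul 2 c) fun c' => fo (Nat.div N 2) fun N' =>
    (fun R =>
    (fun O =>
    (fun OO M =>
    (fun De Do =>
    (fun D' =>
    mk l c' N' S D' fun go => K (node c S O OO M De Do go))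
      (sb S (Nat.mul De De) (Nat.shiftLeft (Nat.mul Do Do) (Nat.mul 2 c))))
      (fE S O OO M D) (fF c S O OO M D))
      (Nat.add O (Nat.shiftLeft O c)) (Nat.mul (mask c) R))
      (Nat.shiftLeft R (Nat.sub c 1)))
      (Nat.div (mask S) (mask (Nat.mul 2 c)))

/-- no coefficient of `A` at an index of the tree is a prime minus one -/
def Hold (A : ℤ⟦X⟧) (t : T) : Prop := ∀ v, memB t v = true → ¬ ((coeff v A).toNat + 1).Prime

lemma Hold_nil (A : ℤ⟦X⟧) : Hold A T.nil := by
  intro v h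
  exact absurd h Bool.false_ne_true

lemma Hold_nd (A : ℤ⟦X⟧) (a b : T) (ha : Hold (ep A) a) (hb : Hold (op A) b) : Hold A (T.nd a b) := by
  intro v h
  have h0 : (Bool.rec (motive := fun _ => Bool) (memB b (v / 2)) (memB a (v / 2))
      (Nat.beq (v % 2) 0) : Bool) = true := h
  cases hc : Nat.beq (v % 2) 0 with
  | true =>
    rw [hc] at h0
    have h1 : v % 2 = 0 := beq_true hc
    have h2 := ha (v / 2) h0
    rw [ep, coeff_mk, show 2 * (v / 2) = v by omega] at h2
    exact h2
  | false =>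
    rw [hc] at h0
    have h1 : v % 2 ≠ 0 := by
      intro h3
      rw [h3] at hc
      exact absurd hc (by decide)
    have h2 := hb (v / 2) h0
    rw [op, coeff_mk, show 2 * (v / 2) + 1 = v by omega] at h2
    exact h2

/-- soundness of a continuation -/
def Snd (c N a s CF : ℕ) (Df : ℤ⟦X⟧) (go : T → ℕ → Bool) : Prop :=
  ∀ (A Pf : ℤ⟦X⟧) (t : T) (P : ℕ), A * Df = Pf → Rep Pf c N P → B1 Pf N a s →
    (∀ i < N, 0 ≤ coeff i A ∧ coeff i A < 2 ^ CF) → go t P = true → Hold A t

/-- the side conditions -/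
def Okk : ℕ → ℕ → ℕ → ℕ → ℕ → Prop
  | 0, _, _, _, _ => True
  | l + 1, c, N, a, s => 0 < c ∧ N = 2 * (N / 2) ∧ a < 2 ^ (c - 1) ∧
    Okk l (2 * c) (N / 2) (a * s) (s * s)

lemma dig_low (A C h j : ℕ) (hj : j < h) :
    A % 2 ^ (C * h) / (2 ^ C) ^ j % 2 ^ C = A / (2 ^ C) ^ j % 2 ^ C := by
  obtain ⟨d, rfl⟩ : ∃ d, h = j + (d + 1) := ⟨h - j - 1, by omega⟩
  have e1 : 2 ^ (C * (j + (d + 1))) = (2 ^ C) ^ j * 2 ^ (C * (d + 1)) := by
    rw [← pow_mul, ← pow_add]
    congr 1
    ring
  rw [e1, Nat.mod_mul_right_div_self]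
  exact Nat.mod_mod_of_dvd _ (pow_dvd_pow 2 (by nlinarith))

lemma tl_spec (C : ℕ) (k : K) : ∀ n A : ℕ, tl C k n A = true → ∀ j, elB k j = true → j < n ∧
    ¬ (A / (2 ^ C) ^ j % 2 ^ C + 1).Prime := by
  induction k with
  | z => intro n A _ j hj; exact absurd hj Bool.false_ne_true
  | t =>
    intro n A h j hj
    have h0 : (Bool.rec (motive := fun _ => Bool) false (fo (Nat.land A (mask C)) qf) (Nat.blt 0 n) : Bool)
      = true := h
    obtain ⟨h1, h2⟩ := rec_and h0
    have hj0 : Nat.beq j 0 = true := hj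
    have hj' : j = 0 := beq_true hj0
    subst hj'
    rw [fo_eq, land_mask] at h2
    refine ⟨blt_true h1, ?_⟩
    rw [pow_zero, Nat.div_one]
    exact qf_spec _ h2
  | s h a b iha ihb =>
    intro n A hh j hj
    have h0 : (Bool.rec (motive := fun _ => Bool) false
      (Bool.rec (motive := fun _ => Bool) false
        (fo (Nat.sub n h) fun m => tl C b m (Nat.shiftRight A (Nat.mul C h)))
        (tl C a h (Nat.land A (mask (Nat.mul C h)))))
      (Nat.ble h n) : Bool) = true := hh
    obtain ⟨h1, h2⟩ := rec_and h0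
    obtain ⟨h3, h4⟩ := rec_and h2
    rw [land_mask] at h3
    rw [fo_eq] at h4
    have h1' : h ≤ n := Nat.le_of_ble_eq_true h1
    have hj0 : fo j (fun j => (Bool.rec (motive := fun _ => Bool) (elB b (Nat.sub j h)) (elB a j)
      (Nat.blt j h) : Bool)) = true := hj
    rw [fo_eq] at hj0
    cases hc : Nat.blt j h with
    | true =>
      rw [hc] at hj0
      have hjh : j < h := blt_true hc
      obtain ⟨h5, h6⟩ := iha h _ h3 j hj0
      refine ⟨by omega, ?_⟩
      rw [show Nat.mul C h = C * h from rfl, dig_low A C h j hjh] at h6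
      exact h6
    | false =>
      rw [hc] at hj0
      have hjh : h ≤ j := by
        by_contra h7
        have h8 : Nat.blt j h = true := Nat.ble_eq.mpr (by omega)
        rw [hc] at h8
        exact Bool.false_ne_true h8
      obtain ⟨h5, h6⟩ := ihb _ _ h4 _ hj0
      have h5' : j - h < n - h := h5
      refine ⟨by omega, ?_⟩
      have h7 : Nat.shiftRight A (Nat.mul C h) / (2 ^ C) ^ (Nat.sub j h) = A / (2 ^ C) ^ j := by
        rw [show Nat.shiftRight A (Nat.mul C h) = A >>> (C * h) from rfl, Nat.shiftRight_eq_div_pow,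
          pow_mul, Nat.div_div_eq_div_mul, ← pow_add, show h + Nat.sub j h = j from
          Nat.add_sub_cancel' hjh]
      rw [h7] at h6
      exact h6

lemma leafgo_spec (c N a s D I : ℕ) (Df : ℤ⟦X⟧) (hD : Rep Df c N D)
    (hI : Nat.land (Nat.mul I D) (mask (c * N)) = 1) : Snd c N a s c Df (leafgo c N (c * N) I) := by
  intro A Pf t P hA hP _ hb hgo
  cases t with
  | nil => exact Hold_nil A
  | nd a b => exact absurd hgo Bool.false_ne_true
  | lf l =>
    have h0 : tl c l N (Nat.land (Nat.mul P I) (mask (c * N))) = true := hgo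
    rw [land_mask] at h0
    rw [land_mask] at hI
    have h1 := tl_spec _ _ _ _ h0
    have hG : ∀ i < N, (coeff i A).toNat < 2 ^ c ∧ ((coeff i A).toNat : ℤ) = coeff i A := by
      intro i hi
      obtain ⟨h2, h3⟩ := hb i hi
      have h4 : ((coeff i A).toNat : ℤ) = coeff i A := Int.toNat_of_nonneg h2
      refine ⟨?_, h4⟩
      have h5 : ((coeff i A).toNat : ℤ) < 2 ^ c := by rw [h4]; exact h3
      exact_mod_cast h5
    have hds : (ds (2 ^ c) N (fun i => (coeff i A).toNat) : ℤ) = tv A N ((2 : ℤ) ^ c) := by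
      rw [ds, tv]
      push_cast
      refine sum_congr rfl fun i hi => ?_
      rw [(hG i (mem_range.mp hi)).2]
    have hmod : ((2 : ℤ) ^ c) ^ N ∣ (P : ℤ) * I - tv A N ((2 : ℤ) ^ c) := by
      have e1 : ((2 : ℤ) ^ c) ^ N ∣ (I : ℤ) * D - 1 := by
        have h2 : (1 : ℕ) ≡ I * D [MOD 2 ^ (c * N)] := by
          have h3 : (I * D) % 2 ^ (c * N) = 1 := hI
          have h4 : (1 : ℕ) % 2 ^ (c * N) = 1 := by
            rw [← h3, Nat.mod_mod]
          rw [Nat.ModEq, h4, h3]
        have h5 := Nat.modEq_iff_dvd.mp h2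
        push_cast at h5
        rw [← pow_mul]
        exact h5
      have e2 := hP.2
      have e3 := hD.2
      have e4 := tv_mul A Df N ((2 : ℤ) ^ c)
      rw [hA] at e4
      unfold Cg at e2 e3
      have e5 := dvd_add (dvd_sub (dvd_sub (e2.mul_left (I : ℤ)) (e4.mul_left (I : ℤ)))
        (e3.mul_left (tv A N ((2 : ℤ) ^ c) * I))) (e1.mul_left (tv A N ((2 : ℤ) ^ c)))
      convert! e5 using 1
      ring
    have hnum : (P * I) % 2 ^ (c * N) = ds (2 ^ c) N (fun i => (coeff i A).toNat) := by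
      have h2 : ds (2 ^ c) N (fun i => (coeff i A).toNat) ≡ P * I [MOD 2 ^ (c * N)] := by
        apply Nat.modEq_iff_dvd.mpr
        rw [hds]
        push_cast
        rw [pow_mul]
        exact hmod
      have h3 : ds (2 ^ c) N (fun i => (coeff i A).toNat) < 2 ^ (c * N) := by
        rw [pow_mul]
        exact ds_lt _ _ _ fun i hi => (hG i hi).1
      rw [← h2, Nat.mod_eq_of_lt h3]
    intro v hv
    have hv' : fo v (elB l) = true := hv
    rw [fo_eq] at hv'
    obtain ⟨h5, h6⟩ := h1 v hv'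
    have h7 : Nat.mul P I % 2 ^ (c * N) = ds (2 ^ c) N (fun i => (coeff i A).toNat) := hnum
    rw [h7, ds_digit _ _ _ (fun i hi => (hG i hi).1) v h5] at h6
    exact h6

lemma part_spec (f : ℤ⟦X⟧) (c K a F O OO M : ℕ) (hc : 0 < c) (hF : Rep f c (2 * K) F)
    (hb : Bd f (2 * K) a) (ha : a < 2 ^ (c - 1)) (hO : O = of c K)
    (hOO : OO = of c K + 2 ^ c * of c K) (hM : M = (2 ^ c - 1) * rp c K) :
    Rep (ep f) (2 * c) K (fE (c * (2 * K)) O OO M F) ∧
      Rep (op f) (2 * c) K (fF c (c * (2 * K)) O OO M F) := by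
  have h1 := even_part f c K a F hc hF hb ha
  have h2 : ∀ z : ℕ, Nat.shiftRight z c = z / 2 ^ c := fun z => Nat.shiftRight_eq_div_pow z c
  rw [fE, fF, land_mask, land_mask, land_mask, shl_one, hO, hOO, hM, h2]
  exact h1

lemma gof_spec (go : T → ℕ → Bool) (v : ℕ) (t : T) (h : gof go v t = true) :
    t = T.nil ∨ go t v = true := by
  cases t with
  | nil => exact Or.inl rfl
  | lf l => exact Or.inr h
  | nd a b => exact Or.inr h

lemma Cg_shift {f : ℤ⟦X⟧} {c N : ℕ} {z : ℕ} (hf : Cg f c N z) :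
    Cg (X * f) c N ((Nat.shiftLeft z c : ℕ) : ℤ) := by
  have h1 := hf.xmul
  rw [show Nat.shiftLeft z c = z <<< c from rfl, Nat.shiftLeft_eq]
  push_cast
  rw [mul_comm (z : ℤ)]
  exact h1

lemma Cg_mulN {f g : ℤ⟦X⟧} {c N : ℕ} {z w : ℕ} (hf : Cg f c N z) (hg : Cg g c N w) :
    Cg (f * g) c N ((Nat.mul z w : ℕ) : ℤ) := by
  have h1 := hf.mul hg
  rw [show Nat.mul z w = z * w from rfl]
  push_cast
  exact h1

lemma node_spec (c N a s CF O OO M De Do : ℕ) (Df : ℤ⟦X⟧) (go : T → ℕ → Bool) (hc : 0 < c)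
    (ha : a < 2 ^ (c - 1)) (hO : O = of c N) (hOO : OO = of c N + 2 ^ c * of c N)
    (hM : M = (2 ^ c - 1) * rp c N) (hbD : B1 Df (2 * N) a s) (hDe : Rep (ep Df) (2 * c) N De)
    (hDo : Rep (op Df) (2 * c) N Do)
    (hgo : Snd (2 * c) N (a * s) (s * s) CF (ep Df * ep Df - X * (op Df * op Df)) go) :
    Snd c (2 * N) a s CF Df (node c (c * (2 * N)) O OO M De Do go) := by
  intro A Pf t P hA hP hbP hb h
  have hcc : c * (2 * N) = 2 * c * N := by ring
  cases t with
  | nil => exact Hold_nil A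
  | lf l => exact absurd h Bool.false_ne_true
  | nd u v =>
    obtain ⟨hPe, hPo⟩ := part_spec Pf c N a P O OO M hc hP hbP.1 ha hO hOO hM
    have hk : (Bool.rec (motive := fun _ => Bool) false
        (gof go (sb (c * (2 * N)) (Nat.mul (fF c (c * (2 * N)) O OO M P) De)
          (Nat.mul (fE (c * (2 * N)) O OO M P) Do)) v)
        (gof go (sb (c * (2 * N)) (Nat.mul (fE (c * (2 * N)) O OO M P) De)
          (Nat.shiftLeft (Nat.mul (fF c (c * (2 * N)) O OO M P) Do) (Nat.mul 2 c))) u) : Bool) = true := h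
    obtain ⟨h1, h2⟩ := rec_and hk
    obtain ⟨hs1, hs2⟩ := step A Df Pf hA
    rw [hcc] at h1 h2 hPe hPo
    apply Hold_nd
    · rcases gof_spec _ _ _ h1 with rfl | h1
      · exact Hold_nil _
      · refine hgo (ep A) _ u _ hs1 ?_ (B1_even hbP hbD) ?_ h1
        · exact (Rep.sb (Cg_mulN hPe.2 hDe.2) (Cg_shift (Cg_mulN hPo.2 hDo.2)))
        · intro i hi
          rw [ep, coeff_mk]
          exact hb _ (by omega)
    · rcases gof_spec _ _ _ h2 with rfl | h2
      · exact Hold_nil _
      · refine hgo (op A) _ v _ hs2 ?_ (B1_odd hbP hbD) ?_ h2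
        · exact (Rep.sb (Cg_mulN hPo.2 hDe.2) (Cg_mulN hPe.2 hDo.2))
        · intro i hi
          rw [op, coeff_mk]
          exact hb _ (by omega)

lemma mk_spec (l : ℕ) : ∀ (c N D : ℕ) (Df : ℤ⟦X⟧) (a s : ℕ) (K : (T → ℕ → Bool) → Bool),
    Okk l c N a s → Rep Df c N D → B1 Df N a s → mk l c N (c * N) D K = true →
    ∃ go, K go = true ∧ Snd c N a s (c * 2 ^ l) Df go := by
  induction l with
  | zero =>
    intro c N D Df a s K _ hD _ h
    have h' : (Bool.rec (motive := fun _ => Bool) false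
        (K (leafgo c N (c * N) (Nat.land (newton D c N 15 1) (mask (c * N)))))
        (Nat.beq (Nat.land (Nat.mul (Nat.land (newton D c N 15 1) (mask (c * N))) D)
          (mask (c * N))) 1) : Bool) = true := h
    obtain ⟨h1, h2⟩ := rec_and h'
    refine ⟨_, h2, ?_⟩
    rw [pow_zero, mul_one]
    exact leafgo_spec c N a s D _ Df hD (beq_true h1)
  | succ l ih =>
    intro c N D Df a s K hok hD hb h
    obtain ⟨hc, hN, ha, hok'⟩ := hok
    obtain ⟨M, rfl⟩ : ∃ M, N = 2 * M := ⟨N / 2, hN⟩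
    have hM : Nat.div (2 * M) 2 = M := Nat.mul_div_cancel_left M (by norm_num)
    have hM' : 2 * M / 2 = M := hM
    rw [hM'] at hok'
    rw [mk, fo_eq, fo_eq, hM] at h
    have hR : Nat.div (mask (c * (2 * M))) (mask (Nat.mul 2 c)) = rp c M := by
      rw [mask_eq, mask_eq]
      exact rp_eq c M hc
    have hO : Nat.shiftLeft (rp c M) (Nat.sub c 1) = of c M := by
      rw [show Nat.shiftLeft (rp c M) (Nat.sub c 1) = (rp c M) <<< (c - 1) from rfl,
        Nat.shiftLeft_eq, of, mul_comm]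
    have hOO : Nat.add (of c M) (Nat.shiftLeft (of c M) c) = of c M + 2 ^ c * of c M := by
      rw [show Nat.shiftLeft (of c M) c = (of c M) <<< c from rfl, Nat.shiftLeft_eq, mul_comm]
      rfl
    have hMm : Nat.mul (mask c) (rp c M) = (2 ^ c - 1) * rp c M := by
      rw [mask_eq]
      rfl
    rw [hR] at h
    beta_reduce at h
    rw [hO, hOO, hMm] at h
    obtain ⟨hDe, hDo⟩ := part_spec Df c M a D _ _ _ hc hD hb.1 ha rfl rfl rfl
    have hcc : c * (2 * M) = 2 * c * M := by ring
    have hrep : Rep (ep Df * ep Df - X * (op Df * op Df)) (2 * c) M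
        (sb (c * (2 * M)) (Nat.mul (fE (c * (2 * M)) (of c M) (of c M + 2 ^ c * of c M)
          ((2 ^ c - 1) * rp c M) D) (fE (c * (2 * M)) (of c M) (of c M + 2 ^ c * of c M)
          ((2 ^ c - 1) * rp c M) D)) (Nat.shiftLeft (Nat.mul (fF c (c * (2 * M)) (of c M)
          (of c M + 2 ^ c * of c M) ((2 ^ c - 1) * rp c M) D) (fF c (c * (2 * M)) (of c M)
          (of c M + 2 ^ c * of c M) ((2 ^ c - 1) * rp c M) D)) (Nat.mul 2 c))) := by
      rw [hcc] at hDe hDo ⊢
      exact Rep.sb (Cg_mulN hDe.2 hDe.2) (Cg_shift (Cg_mulN hDo.2 hDo.2))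
    obtain ⟨go, hgo, hsnd⟩ := ih (2 * c) M _ _ (a * s) (s * s) _ hok' hrep (B1_even hb hb) (by
      rw [← hcc]
      exact h)
    refine ⟨_, hgo, ?_⟩
    have h5 : c * 2 ^ (l + 1) = 2 * c * 2 ^ l := by ring
    rw [h5]
    exact node_spec c M a s _ _ _ _ _ _ Df go hc ha rfl rfl rfl hb hDe hDo hsnd

end Pool.Agent.U982.DL
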